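import Pool.Agent.V11257.Cp6
import Pool.Agent.V11257.Zt9

/-!
# A model of ZF with a P-space whose Hewitt E-compact extension is not a P-space

The model is a symmetric model with a set `A` that is the union of levels `A_n`, and names for the
sets that are almost equal to one half `H_n` of some level. The space `E` is the discrete space of
the real numbers, and `X` is `A` (with isolated points) with one more point whose neighbourhoods
are the sets that contain it and almost all of every `H_n`. The Hewitt extension of `X` contains
the limits `q_n` of the complements of `H_n` in the levels `A_n`, and the sequence of these new
points converges to the added point of `X`.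
-/

namespace Pool.Agent.Results.MP_a61393_lc.HewittExtension

open FirstOrder FirstOrder.Language
open Pool.Agent.Helper672.Plain (LSet)
open Pool.Agent.H635Amen (ZF)
open Pool.Agent.V11257K
open Pool.Agent.V11257Z (exists_of_forall)

universe u

/-- There is a model of ZF (and for every model of ZF there is one in the same universe) with a
Tychonoff space E such that the discrete space of the real numbers is E-compact, and an
E-completely regular P-space whose Hewitt E-compact extension is not a P-space. -/
theorem result : (∃ (N : Type 1) (_ : LSet.Structure N), ZF N ∧ HewittFails N) ∧
    ∀ (M : Type u) [LSet.Structure M], ZF M → ∃ (N : Type u) (_ : LSet.Structure N),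
      ZF N ∧ HewittFails N :=
  ⟨exists_of_forall fun M _ hM => exists_hewittFails M hM, fun M _ hM => exists_hewittFails M hM⟩

end Pool.Agent.Results.MP_a61393_lc.HewittExtension
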